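import Mathlib
import Pool.Agent.helper30.FZ.Defs
import Pool.Agent.helper81.FZ.Main

set_option autoImplicit false

namespace Pool.Agent.Results.MP_1b8d20_an.BoundedOrbits

open Pool.Agent.FZ Pool.Agent.FZR

/-- If the orbit of `x 0` under a sequence of renormalisation polynomials (of bounded or slowly
growing degrees, for arbitrary sign words) is bounded then `x 0` is an interior point of the
periodic part of the Feinberg-Zee hopping spectrum. -/
theorem result : ∀ (n : ℕ → ℕ) (k : ℕ → ℕ → ℂ) (R : ℝ) (x : ℕ → ℂ),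
    (∀ m, 1 ≤ n m) → (∀ ε : ℝ, 0 < ε → ∃ M : ℕ, 0 < M ∧ ∀ m, m < M → (n m : ℝ) ≤ ε * √M) →
    (∀ m i, k m i = 1 ∨ k m i = -1) → (∀ m, x (m + 1) = (renPoly (n m) (k m)).eval (x m)) →
    (∀ m, ‖x m‖ ≤ R) → x 0 ∈ interior periodicPart :=
  bounded_orbits

end Pool.Agent.Results.MP_1b8d20_an.BoundedOrbits
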