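import Mathlib
import Pool.Agent.helper30.FZ.Defs
import Pool.Agent.helper95.M4.Exact2

/-!
The periodic part of the Feinberg-Zee hopping spectrum is the whole spectrum, and the spectrum is
the closure of an explicit set, described by the Farey polynomials.
-/

set_option autoImplicit false

namespace Pool.Agent.Results.MP_1b8d20_an.ExplicitSpectrum

open Complex Pool.Agent.FZ

/-- The triples of the values at `z` of the Farey polynomials: the root triple is
`(z, -i z^2, -i z)`, and each triple `(l, n, r)` has the two children `(n, n r - l, r)` and
`(l, l n - r, n)`. -/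
inductive Farey (z : ℂ) : ℂ → ℂ → ℂ → Prop
  | root : Farey z z (-I * z ^ 2) (-I * z)
  | left {l n r : ℂ} : Farey z l n r → Farey z n (n * r - l) r
  | right {l n r : ℂ} : Farey z l n r → Farey z l (l * n - r) n

/-- `v` has modulus smaller than one, or is real and lies in the segment `[-2, 2]`. -/
def Short (v : ℂ) : Prop := ‖v‖ < 1 ∨ (v.im = 0 ∧ |v.re| ≤ 2)

/-- The set of the points `z` at which some Farey triple has a short entry. -/
def shortSet : Set ℂ := {z : ℂ | ∃ l n r : ℂ, Farey z l n r ∧ (Short l ∨ Short n ∨ Short r)}

theorem farey_iff {z l n r : ℂ} : Farey z l n r ↔ Pool.Agent.M4.FT z l n r := by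
  constructor
  · intro h
    induction h with
    | root => exact Pool.Agent.M4.FT.root
    | left _ ih => exact ih.left
    | right _ ih => exact ih.right
  · intro h
    induction h with
    | root => exact Farey.root
    | left _ ih => exact ih.left
    | right _ ih => exact ih.right

/-- The periodic part of the hopping spectrum is the whole hopping spectrum, and it is the closure
of the set of all complex numbers at which some Farey polynomial has modulus smaller than one or
takes a value in the real segment `[-2, 2]`. -/
theorem result : periodicPart = hoppingSpectrum ∧ hoppingSpectrum = closure shortSet := by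
  have h1 : periodicPart = hoppingSpectrum := Pool.Agent.M4.per_eq
  refine ⟨h1, h1.symm.trans ?_⟩
  have h2 : periodicPart = closure Pool.Agent.M4.Bs := Pool.Agent.M4.per_eq_cl
  rw [h2]
  congr 1
  ext z
  constructor
  · rintro ⟨l, n, r, h, hs⟩
    exact ⟨l, n, r, farey_iff.mpr h, hs⟩
  · rintro ⟨l, n, r, h, hs⟩
    exact ⟨l, n, r, farey_iff.mp h, hs⟩

end Pool.Agent.Results.MP_1b8d20_an.ExplicitSpectrum
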