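import Mathlib
import Pool.Agent.helper30.FZ.Defs
import Pool.Agent.helper81.FZ.SpecBP

set_option autoImplicit false

namespace Pool.Agent.Results.MP_1b8d20_an.InverseImages

open Pool.Agent.FZ Pool.Agent.FZR

/-- The inverse image of the periodic part of the Feinberg-Zee hopping spectrum under the
renormalisation polynomial of an arbitrary sign word is contained in the periodic part. -/
theorem result : ∀ (n : ℕ) (k : ℕ → ℂ), (∀ i, k i = 1 ∨ k i = -1) → ∀ z : ℂ,
    (renPoly n k).eval z ∈ periodicPart → z ∈ periodicPart :=
  inverse_images

end Pool.Agent.Results.MP_1b8d20_an.InverseImages
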