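import Mathlib
import Pool.Agent.helper30.FZ.Defs
import Pool.Agent.helper81.FZ.Growth

set_option autoImplicit false

namespace Pool.Agent.Results.MP_1b8d20_an.TransferGrowth

open Pool.Agent.FZ Pool.Agent.FZR

/-- Outside the interior of the periodic part of the Feinberg-Zee hopping spectrum, for every sign
sequence at most `18 |z|^2 Q^4` of the transfer matrices have all entries bounded by `Q`. -/
theorem result : ∀ (z : ℂ), z ∉ interior periodicPart → ∀ c : ℕ → ℂ, (∀ i, c i = 1 ∨ c i = -1) →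
    ∀ Q : ℝ, 1 ≤ Q → ∀ F : Finset ℕ, (∀ n ∈ F, ∀ i j, ‖mat c z n i j‖ ≤ Q) →
    (F.card : ℝ) ≤ 18 * ‖z‖ ^ 2 * Q ^ 4 :=
  fun _ hz c hc Q hQ F hF => growth hz c hc Q hQ F hF

end Pool.Agent.Results.MP_1b8d20_an.TransferGrowth
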